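import Pool.Agent.Lib.MP_b38472_lc.Test

/-!
No universal lower semicomputable semimeasure converges on all Martin-Löf random sequences.
-/

namespace Pool.Agent.Results.MP_b38472_lc.NoUniversalConverges

open Filter Topology Pool.Agent.SemConv

/-- For every universal lower semicomputable semimeasure `M` (mixture or not) there is a sequence
`ω`, Martin-Löf random with respect to the uniform measure, such that the conditional
probabilities `M (ω_n | ω_{<n})` do not converge to `1/2`. -/
theorem result : ∀ M : List Bool → ℝ, IsUniversal M →
    ∃ ω : ℕ → Bool, MLRandom ω ∧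
      ¬ Tendsto (fun n => M (pre ω (n + 1)) / M (pre ω n)) atTop (𝓝 (1 / 2)) := by
  intro M hM
  obtain ⟨ω, C, h1, h2⟩ := exists_bad M hM
  exact ⟨ω, mlrandom_of_bounded M hM ω C h1, h2⟩

end Pool.Agent.Results.MP_b38472_lc.NoUniversalConverges
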